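import Pool.Agent.H415R3.CZ7

/-!
A counterexample to the completely bounded abstract Crouzeix statement (Q1 of MP_042718_an),
with `n = 2` and a finite dimensional operator algebra.
-/

namespace Pool.Agent.H415R3.Superseded.CrouzeixCB

open Pool.Agent.H415R3.CZ

/-- There are a finite dimensional Hilbert space `H`, a unital subalgebra `A` of `B(H)`, a unital
completely bounded homomorphism `θ : A → B(ℂ²)` and a unital antilinear complete contraction
`α : A → A` such that `a ↦ (θ a + (θ (α a))^*) / 2` is completely contractive and yet the
completely bounded norm of `θ` is larger than `2`; in fact `2 < ‖θ f‖` for an `f` in the closed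
unit ball of `A`.  The map `α` is completely contractive both for the amplification
`[a i j] ↦ [α (a i j)]` and for `[a i j] ↦ [α (a j i)]`. -/
theorem result :
    ∃ (H : Type) (_ : NormedAddCommGroup H) (_ : InnerProductSpace ℂ H) (_ : FiniteDimensional ℂ H)
      (A : Set (B H)) (θ : B H → B (EuclideanSpace ℂ (Fin 2))) (α : B H → B H),
      Hyp A θ α ∧ ¬ CBOn A θ 2 ∧ Large A θ :=
  ⟨H8, inferInstance, inferInstance, inferInstance, AA, thB, alOp, final_hyp, not_cbOn_two,
    final_large⟩

end Pool.Agent.H415R3.Superseded.CrouzeixCB
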